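import Pool.Agent.Y578.WT.Main

/-!
# Total weighted tardiness is strongly NP-hard for six processing times

The starting result BoundedLengthsNPHard proves that `1 || ∑ w_j T_j` is NP-hard for processing
times at most `13`, the weights being written in binary.  Here all numbers (weights, due dates and
the bound included) are written in unary, and the processing times are among
`1, 2, 5, 7, 10, 13`.  So `1 || ∑ w_j T_j` is strongly NP-hard with six different, constant
processing times, and unless `P = NP` there is not even an algorithm with running time
`f(p_max) * (n + ∑ w_j + ∑ d_j)^O(1)`.

The reduction is the one of the starting result; the different scales of its weights are bounded by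
polynomials in the size of the formula.
-/

namespace Pool.Agent.Results.MP_9ce56d_lc.UnarySixLengths

open Pool.Agent.NPC Pool.Agent.H257R2.WT Pool.Agent.H633R2 Pool.Agent.Y578.WT

/-- **`1 || ∑ w_j T_j` is strongly NP-hard for six processing times**: (1) with all numbers in
unary it is NP-hard even when restricted to the instances with processing times among
`1, 2, 5, 7, 10, 13`; (2) if, with all numbers in unary, it is fixed-parameter tractable with
respect to the maximum processing time, then `P = NP`; (3) in particular (this is Q1) if
`1 || ∑ w_j T_j`, with numbers in binary, is fixed-parameter tractable with respect to the maximum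
processing time, then `P = NP`. -/
theorem result :
    NPHardOn SixLengths TardyUnary ∧
    (IsFpt pmaxU TardyUnary → ∀ L : Set (List Bool), InNP L → InP L) ∧
    (IsFpt pmax Tardy → ∀ L : Set (List Bool), InNP L → InP L) :=
  ⟨toNPHardOn hardPr_unary, fpt_collapseU, fpt_collapse⟩

end Pool.Agent.Results.MP_9ce56d_lc.UnarySixLengths
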